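import Mathlib

set_option autoImplicit false

open Finset Nat ArithmeticFunction BoundingSieve
open scoped ArithmeticFunction.Moebius

namespace Pool.Agent.Helper923.PPS

section Selberg

variable (s : BoundingSieve) (R : ℝ)

/-- The Selberg sum. -/
noncomputable def selS : ℝ :=
  ∑ l ∈ (divisors s.prodPrimes).filter (fun l : ℕ => (l : ℝ) ≤ R), s.selbergTerms l

/-- The Selberg weights. -/
noncomputable def selW (d : ℕ) : ℝ :=
  (s.nu d)⁻¹ * (μ d : ℝ) * (selS s R)⁻¹ *
    ∑ l ∈ (divisors s.prodPrimes).filter (fun l : ℕ => d ∣ l ∧ (l : ℝ) ≤ R), s.selbergTerms l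

/-- Moebius sum over an interval of the divisor lattice. -/
theorem sum_moebius_between {P l m : ℕ} (hP : Squarefree P) (hl : l ∣ P) (hm : m ∣ P) :
    (∑ d ∈ (divisors P).filter (fun d : ℕ => l ∣ d ∧ d ∣ m), (μ d : ℝ)) =
      if l = m then (μ l : ℝ) else 0 := by
  have hP0 : P ≠ 0 := hP.ne_zero
  by_cases hlm : l ∣ m
  · obtain ⟨k, rfl⟩ := hlm
    have hsq : Squarefree (l * k) := hP.squarefree_of_dvd hm
    have hcop : Nat.Coprime l k := coprime_of_squarefree_mul hsq
    have hl0 : l ≠ 0 := by rintro rfl; simp at hsq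
    have hk0 : k ≠ 0 := by rintro rfl; simp at hsq
    have himg : (divisors P).filter (fun d : ℕ => l ∣ d ∧ d ∣ l * k) =
        (divisors k).image (fun e => l * e) := by
      ext d
      simp only [Finset.mem_filter, Nat.mem_divisors, Finset.mem_image]
      constructor
      · rintro ⟨⟨_, _⟩, ⟨e, rfl⟩, h2⟩
        exact ⟨e, ⟨Nat.dvd_of_mul_dvd_mul_left (Nat.pos_of_ne_zero hl0) h2, hk0⟩, rfl⟩
      · rintro ⟨e, ⟨he, _⟩, rfl⟩
        have : l * e ∣ l * k := Nat.mul_dvd_mul_left l he
        exact ⟨⟨this.trans hm, hP0⟩, Dvd.intro _ rfl, this⟩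
    rw [himg, Finset.sum_image (by
      intro a _ b _ hab
      exact Nat.eq_of_mul_eq_mul_left (Nat.pos_of_ne_zero hl0) hab)]
    have h1 : ∀ e ∈ divisors k, ((μ (l * e) : ℤ) : ℝ) = (μ l : ℝ) * (μ e : ℝ) := by
      intro e he
      have hce : Nat.Coprime l e := Nat.Coprime.coprime_dvd_right (Nat.dvd_of_mem_divisors he) hcop
      rw [ArithmeticFunction.isMultiplicative_moebius.map_mul_of_coprime hce]
      push_cast; ring
    rw [Finset.sum_congr rfl h1, ← Finset.mul_sum]
    have h2 : (∑ e ∈ divisors k, (μ e : ℤ)) = if k = 1 then 1 else 0 := by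
      rw [← coe_mul_zeta_apply, moebius_mul_coe_zeta, one_apply]
    have h3 : (∑ e ∈ divisors k, (μ e : ℝ)) = if k = 1 then 1 else 0 := by
      have := congrArg (fun z : ℤ => (z : ℝ)) h2
      simp only [Int.cast_sum] at this
      rw [this]; split_ifs <;> simp
    rw [h3]
    by_cases hk : k = 1
    · subst hk; simp
    · rw [if_neg hk, if_neg, mul_zero]
      intro h
      apply hk
      have : l * 1 = l * k := by rw [mul_one]; exact h
      exact (Nat.eq_of_mul_eq_mul_left (Nat.pos_of_ne_zero hl0) this).symm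
  · rw [if_neg (by rintro rfl; exact hlm dvd_rfl)]
    apply Finset.sum_eq_zero
    intro d hd
    rw [Finset.mem_filter] at hd
    exact absurd (hd.2.1.trans hd.2.2) hlm

theorem selS_pos (hR : 1 ≤ R) : 0 < selS s R := by
  unfold selS
  apply Finset.sum_pos'
  · intro l hl
    rw [Finset.mem_filter, Nat.mem_divisors] at hl
    exact (selbergTerms_pos hl.1.1).le
  · refine ⟨1, ?_, ?_⟩
    · rw [Finset.mem_filter, Nat.mem_divisors]
      exact ⟨⟨one_dvd _, prodPrimes_ne_zero⟩, by simpa using hR⟩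
    · exact selbergTerms_pos (one_dvd _)

theorem selW_one (hR : 1 ≤ R) : selW s R 1 = 1 := by
  unfold selW
  have h : (divisors s.prodPrimes).filter (fun l : ℕ => 1 ∣ l ∧ (l : ℝ) ≤ R) =
      (divisors s.prodPrimes).filter (fun l : ℕ => (l : ℝ) ≤ R) := by
    ext l; simp
  rw [h]
  have := (selS_pos s R hR).ne'
  simp only [s.nu_mult.map_one, inv_one, moebius_apply_one, Int.cast_one, one_mul, mul_one]
  exact inv_mul_cancel₀ this

theorem selW_diag (hR : 1 ≤ R) {l : ℕ} (hl : l ∣ s.prodPrimes) :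
    (∑ d ∈ divisors s.prodPrimes, if l ∣ d then s.nu d * selW s R d else 0) =
      if (l : ℝ) ≤ R then (selS s R)⁻¹ * (μ l : ℝ) * s.selbergTerms l else 0 := by
  have hP := s.prodPrimes_squarefree
  have step1 : ∀ d ∈ divisors s.prodPrimes, (if l ∣ d then s.nu d * selW s R d else 0) =
      ∑ m ∈ (divisors s.prodPrimes).filter (fun m : ℕ => (m : ℝ) ≤ R),
        if l ∣ d ∧ d ∣ m then (selS s R)⁻¹ * s.selbergTerms m * (μ d : ℝ) else 0 := by
    intro d hd
    have hnu : s.nu d ≠ 0 := nu_ne_zero (Nat.dvd_of_mem_divisors hd)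
    by_cases hld : l ∣ d
    · rw [if_pos hld]
      unfold selW
      have : s.nu d * ((s.nu d)⁻¹ * (μ d : ℝ) * (selS s R)⁻¹ *
          ∑ l ∈ (divisors s.prodPrimes).filter (fun l : ℕ => d ∣ l ∧ (l : ℝ) ≤ R), s.selbergTerms l) =
          (selS s R)⁻¹ * (μ d : ℝ) *
          ∑ l ∈ (divisors s.prodPrimes).filter (fun l : ℕ => d ∣ l ∧ (l : ℝ) ≤ R), s.selbergTerms l := by
        field_simp
      rw [this, Finset.mul_sum, Finset.sum_filter, Finset.sum_filter]
      apply Finset.sum_congr rfl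
      intro m _
      by_cases h1 : (m : ℝ) ≤ R <;> by_cases h2 : d ∣ m <;> simp [h1, h2, hld]
      ring
    · rw [if_neg hld]
      symm
      apply Finset.sum_eq_zero
      intro m _
      rw [if_neg]
      rintro ⟨h, _⟩
      exact hld h
  rw [Finset.sum_congr rfl step1, Finset.sum_comm]
  have step2 : ∀ m ∈ (divisors s.prodPrimes).filter (fun m : ℕ => (m : ℝ) ≤ R),
      (∑ d ∈ divisors s.prodPrimes,
        if l ∣ d ∧ d ∣ m then (selS s R)⁻¹ * s.selbergTerms m * (μ d : ℝ) else 0) =
      if l = m then (selS s R)⁻¹ * s.selbergTerms m * (μ l : ℝ) else 0 := by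
    intro m hm
    rw [Finset.mem_filter] at hm
    rw [← Finset.sum_filter, ← Finset.mul_sum,
      sum_moebius_between hP hl (Nat.dvd_of_mem_divisors hm.1)]
    split_ifs <;> simp
  rw [Finset.sum_congr rfl step2, Finset.sum_ite_eq]
  by_cases hlR : (l : ℝ) ≤ R
  · rw [if_pos, if_pos hlR]
    · ring
    · rw [Finset.mem_filter, Nat.mem_divisors]
      exact ⟨⟨hl, prodPrimes_ne_zero⟩, hlR⟩
  · rw [if_neg, if_neg hlR]
    rw [Finset.mem_filter]
    rintro ⟨_, h⟩
    exact hlR h

theorem mainSum_selW (hR : 1 ≤ R) :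
    s.mainSum (lambdaSquared (selW s R)) = (selS s R)⁻¹ := by
  rw [mainSum_lambdaSquared_eq_sum_mul_sum_sq]
  have hS := (selS_pos s R hR).ne'
  have h1 : ∀ l ∈ divisors s.prodPrimes, (s.selbergTerms l)⁻¹ *
      (∑ d ∈ divisors s.prodPrimes, if l ∣ d then s.nu d * selW s R d else 0) ^ 2 =
      if (l : ℝ) ≤ R then (selS s R)⁻¹ ^ 2 * s.selbergTerms l else 0 := by
    intro l hl
    rw [selW_diag s R hR (Nat.dvd_of_mem_divisors hl)]
    split_ifs with h
    · have hg := (selbergTerms_pos (s := s) (Nat.dvd_of_mem_divisors hl)).ne'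
      have hμ : ((μ l : ℤ) : ℝ) ^ 2 = 1 := by
        have : (μ l) ^ 2 = 1 := moebius_sq_eq_one_of_squarefree
          (squarefree_of_mem_divisors_prodPrimes hl)
        exact_mod_cast this
      calc (s.selbergTerms l)⁻¹ * ((selS s R)⁻¹ * (μ l : ℝ) * s.selbergTerms l) ^ 2
          = (selS s R)⁻¹ ^ 2 * ((μ l : ℝ) ^ 2) * ((s.selbergTerms l)⁻¹ * s.selbergTerms l)
              * s.selbergTerms l := by ring
        _ = (selS s R)⁻¹ ^ 2 * s.selbergTerms l := by
          rw [hμ, inv_mul_cancel₀ hg]; ring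
    · simp
  rw [Finset.sum_congr rfl h1, ← Finset.sum_filter, ← Finset.mul_sum]
  change (selS s R)⁻¹ ^ 2 * selS s R = (selS s R)⁻¹
  field_simp

theorem selW_eq_zero {d : ℕ} (hd : R < d) : selW s R d = 0 := by
  unfold selW
  rw [Finset.sum_eq_zero, mul_zero]
  intro l hl
  rw [Finset.mem_filter, Nat.mem_divisors] at hl
  exfalso
  have hl0 : 0 < l := Nat.pos_of_ne_zero (fun h => by
    rw [h] at hl; exact hl.1.2 (Nat.eq_zero_of_zero_dvd hl.1.1))
  have : d ≤ l := Nat.le_of_dvd hl0 hl.2.1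
  have : (d : ℝ) ≤ l := by exact_mod_cast this
  linarith [hl.2.2]

theorem abs_selW_le (hR : 1 ≤ R) {d : ℕ} (hd : d ∣ s.prodPrimes) :
    |selW s R d| ≤ (s.nu d)⁻¹ := by
  unfold selW
  have hnu : 0 < s.nu d := nu_pos_of_dvd_prodPrimes hd
  have hS := selS_pos s R hR
  have h1 : (∑ l ∈ (divisors s.prodPrimes).filter (fun l : ℕ => d ∣ l ∧ (l : ℝ) ≤ R),
      s.selbergTerms l) ≤ selS s R := by
    unfold selS
    apply Finset.sum_le_sum_of_subset_of_nonneg
    · intro l; simp only [Finset.mem_filter]; tauto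
    · intro l hl _
      rw [Finset.mem_filter, Nat.mem_divisors] at hl
      exact (selbergTerms_pos hl.1.1).le
  have h0 : 0 ≤ (∑ l ∈ (divisors s.prodPrimes).filter (fun l : ℕ => d ∣ l ∧ (l : ℝ) ≤ R),
      s.selbergTerms l) := by
    apply Finset.sum_nonneg
    intro l hl
    rw [Finset.mem_filter, Nat.mem_divisors] at hl
    exact (selbergTerms_pos hl.1.1).le
  have hμ : |((μ d : ℤ) : ℝ)| ≤ 1 := by
    have : |μ d| ≤ 1 := abs_moebius_le_one
    exact_mod_cast this
  rw [abs_mul, abs_mul, abs_mul, abs_of_nonneg h0, abs_of_pos (inv_pos.mpr hnu),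
    abs_of_pos (inv_pos.mpr hS)]
  calc (s.nu d)⁻¹ * |((μ d : ℤ) : ℝ)| * (selS s R)⁻¹ *
      ∑ l ∈ (divisors s.prodPrimes).filter (fun l : ℕ => d ∣ l ∧ (l : ℝ) ≤ R), s.selbergTerms l
      ≤ (s.nu d)⁻¹ * 1 * (selS s R)⁻¹ * selS s R := by gcongr
    _ = (s.nu d)⁻¹ := by field_simp

/-- Selberg's sieve with the crude bound for the weights. -/
theorem siftedSum_le_selberg (hR : 1 ≤ R) (E : ℝ) (hE : 0 ≤ E)
    (hrem : ∀ d, d ∣ s.prodPrimes → |s.rem d| ≤ E) :
    s.siftedSum ≤ s.totalMass / selS s R +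
      E * (∑ d ∈ (divisors s.prodPrimes).filter (fun d : ℕ => (d : ℝ) ≤ R), (s.nu d)⁻¹) ^ 2 := by
  have h := siftedSum_le_mainSum_errSum_of_upperMoebius (s := s)
    (lambdaSquared (selW s R)) (upperMoebius_lambdaSquared _ (selW_one s R hR))
  rw [mainSum_selW s R hR] at h
  refine h.trans ?_
  rw [div_eq_mul_inv]
  gcongr
  unfold errSum
  have h1 : ∀ d ∈ divisors s.prodPrimes, |lambdaSquared (selW s R) d| * |s.rem d| ≤
      ∑ d1 ∈ divisors s.prodPrimes, ∑ d2 ∈ divisors s.prodPrimes,
        if d = Nat.lcm d1 d2 then E * (|selW s R d1| * |selW s R d2|) else 0 := by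
    intro d hd
    have hdP := Nat.dvd_of_mem_divisors hd
    have h2 : |lambdaSquared (selW s R) d| ≤ ∑ d1 ∈ divisors s.prodPrimes,
        ∑ d2 ∈ divisors s.prodPrimes,
        if d = Nat.lcm d1 d2 then (|selW s R d1| * |selW s R d2|) else 0 := by
      unfold lambdaSquared
      refine (Finset.abs_sum_le_sum_abs _ _).trans ?_
      calc ∑ d1 ∈ d.divisors, |∑ d2 ∈ d.divisors,
            if d = Nat.lcm d1 d2 then selW s R d1 * selW s R d2 else 0|
          ≤ ∑ d1 ∈ d.divisors, ∑ d2 ∈ d.divisors,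
            if d = Nat.lcm d1 d2 then |selW s R d1| * |selW s R d2| else 0 := by
            apply Finset.sum_le_sum
            intro d1 _
            refine (Finset.abs_sum_le_sum_abs _ _).trans ?_
            apply Finset.sum_le_sum
            intro d2 _
            split_ifs
            · rw [abs_mul]
            · simp
        _ ≤ ∑ d1 ∈ d.divisors, ∑ d2 ∈ divisors s.prodPrimes,
            if d = Nat.lcm d1 d2 then |selW s R d1| * |selW s R d2| else 0 := by
            apply Finset.sum_le_sum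
            intro d1 _
            apply Finset.sum_le_sum_of_subset_of_nonneg
            · exact Nat.divisors_subset_of_dvd prodPrimes_ne_zero hdP
            · intro d2 _ _; split_ifs <;> positivity
        _ ≤ _ := by
            apply Finset.sum_le_sum_of_subset_of_nonneg
            · exact Nat.divisors_subset_of_dvd prodPrimes_ne_zero hdP
            · intro d1 _ _
              apply Finset.sum_nonneg
              intro d2 _; split_ifs <;> positivity
    calc |lambdaSquared (selW s R) d| * |s.rem d|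
        ≤ (∑ d1 ∈ divisors s.prodPrimes, ∑ d2 ∈ divisors s.prodPrimes,
        if d = Nat.lcm d1 d2 then (|selW s R d1| * |selW s R d2|) else 0) * E := by
          apply mul_le_mul h2 (hrem d hdP) (abs_nonneg _)
          apply Finset.sum_nonneg
          intro d1 _
          apply Finset.sum_nonneg
          intro d2 _
          split_ifs <;> positivity
      _ = _ := by
          rw [Finset.sum_mul]
          apply Finset.sum_congr rfl
          intro d1 _
          rw [Finset.sum_mul]
          apply Finset.sum_congr rfl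
          intro d2 _
          split_ifs
          · ring
          · simp
  refine (Finset.sum_le_sum h1).trans ?_
  rw [Finset.sum_comm]
  have h3 : ∀ d1 ∈ divisors s.prodPrimes, (∑ d ∈ divisors s.prodPrimes,
      ∑ d2 ∈ divisors s.prodPrimes,
        if d = Nat.lcm d1 d2 then E * (|selW s R d1| * |selW s R d2|) else 0) ≤
      ∑ d2 ∈ divisors s.prodPrimes, E * (|selW s R d1| * |selW s R d2|) := by
    intro d1 _
    rw [Finset.sum_comm]
    apply Finset.sum_le_sum
    intro d2 _
    rw [Finset.sum_ite_eq']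
    split_ifs
    · exact le_refl _
    · positivity
  refine (Finset.sum_le_sum h3).trans ?_
  have h4 : (∑ d1 ∈ divisors s.prodPrimes, ∑ d2 ∈ divisors s.prodPrimes,
      E * (|selW s R d1| * |selW s R d2|)) = E * (∑ d ∈ divisors s.prodPrimes, |selW s R d|) ^ 2 := by
    rw [sq, Finset.sum_mul_sum, Finset.mul_sum]
    apply Finset.sum_congr rfl
    intro d1 _
    rw [Finset.mul_sum]
  rw [h4]
  have h5 : (∑ d ∈ divisors s.prodPrimes, |selW s R d|) ≤
      ∑ d ∈ (divisors s.prodPrimes).filter (fun d : ℕ => (d : ℝ) ≤ R), (s.nu d)⁻¹ := by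
    rw [Finset.sum_filter]
    apply Finset.sum_le_sum
    intro d hd
    split_ifs with h
    · exact abs_selW_le s R hR (Nat.dvd_of_mem_divisors hd)
    · rw [selW_eq_zero s R (not_le.mp h), abs_zero]
  have h6 : 0 ≤ (∑ d ∈ divisors s.prodPrimes, |selW s R d|) :=
    Finset.sum_nonneg (fun _ _ => abs_nonneg _)
  gcongr

end Selberg

end Pool.Agent.Helper923.PPS
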